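import Pool.Agent.U136.DX.Stm3

set_option autoImplicit false

/-! Project DX, package EV: the values of the polynomials. -/

namespace Pool.Agent.U975.DX

open MvPolynomial Pool.Agent.N983.RT Pool.Agent.U136.DX

theorem t_EV : S_EV := by
  refine ⟨fun e m k => ?_, fun P _ ε k => ?_⟩
  · unfold ev lapP nsq
    simp only [map_mul, map_pow, map_sum, MvPolynomial.eval_C, MvPolynomial.eval_X]
  · unfold ev
    rw [map_mul, MvPolynomial.eval_C]

end Pool.Agent.U975.DX
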